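import Mathlib

set_option autoImplicit false

open Polynomial

namespace Pool.Agent.Results.MP_84341e_al.PeriodicCases

section Basic

variable {p : ℕ} {F : Type} [Field F] {L : Type} [LieRing L] [LieAlgebra F L] {φ : L → L}

theorem ad_phi (h2 : ∀ x y : L, ⁅φ x, y⁆ = ((LieAlgebra.ad F L x) ^ p) y) (x : L) :
    LieAlgebra.ad F L (φ x) = (LieAlgebra.ad F L x) ^ p := by
  ext y
  rw [LieAlgebra.ad_apply, h2]

theorem ad_iter (h2 : ∀ x y : L, ⁅φ x, y⁆ = ((LieAlgebra.ad F L x) ^ p) y) (n : ℕ) (x : L) :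
    LieAlgebra.ad F L (φ^[n] x) = (LieAlgebra.ad F L x) ^ (p ^ n) := by
  induction n with
  | zero => simp
  | succ n ih => rw [Function.iterate_succ_apply', ad_phi h2, ih, ← pow_mul, pow_succ]

theorem ad_per (h2 : ∀ x y : L, ⁅φ x, y⁆ = ((LieAlgebra.ad F L x) ^ p) y)
    {n : ℕ} {x : L} (h : φ^[n] x = x) (j : ℕ) :
    (LieAlgebra.ad F L x) ^ (p ^ (n * j)) = LieAlgebra.ad F L x := by
  induction j with
  | zero => simp
  | succ j ih =>
    rw [Nat.mul_succ, pow_add, pow_mul, ih, ← ad_iter h2, h]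

/-- If `(ad x)^r y = 0` for some `r` then `[x, y] = 0`. -/
theorem nil (hp : p.Prime) (h2 : ∀ x y : L, ⁅φ x, y⁆ = ((LieAlgebra.ad F L x) ^ p) y)
    (h4 : ∀ x : L, ∃ n : ℕ, 0 < n ∧ φ^[n] x = x) (x y : L) (r : ℕ)
    (h : ((LieAlgebra.ad F L x) ^ r) y = 0) : ⁅x, y⁆ = 0 := by
  obtain ⟨n, hn, hx⟩ := h4 x
  have h1 := ad_per h2 hx r
  have hr : r ≤ p ^ (n * r) := by
    have h5 : r < p ^ r := Nat.lt_pow_self hp.one_lt
    have h6 : p ^ r ≤ p ^ (n * r) := Nat.pow_le_pow_right hp.pos (by nlinarith)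
    omega
  have h7 : ⁅x, y⁆ = ((LieAlgebra.ad F L x) ^ (p ^ (n * r))) y := by
    rw [h1, LieAlgebra.ad_apply]
  rw [h7, ← Nat.sub_add_cancel hr, pow_add, Module.End.mul_apply, h, map_zero]

theorem eig (hp : p.Prime) (h2 : ∀ x y : L, ⁅φ x, y⁆ = ((LieAlgebra.ad F L x) ^ p) y)
    (h4 : ∀ x : L, ∃ n : ℕ, 0 < n ∧ φ^[n] x = x) (x v : L) (c : F)
    (h : ⁅x, v⁆ = c • v) : c • v = 0 := by
  have h1 : ((LieAlgebra.ad F L v) ^ 2) x = 0 := by
    rw [pow_two, Module.End.mul_apply, LieAlgebra.ad_apply, LieAlgebra.ad_apply,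
      ← lie_skew v x, h, lie_neg, lie_smul, lie_self, smul_zero, neg_zero]
  have h3 := nil hp h2 h4 v x 2 h1
  rw [← lie_skew v x, neg_eq_zero] at h3
  rw [← h, h3]

end Basic

section Split

variable {F : Type} [Field F] {V : Type} [AddCommGroup V] [Module F V]

theorem exists_eig (T : Module.End F V) (s : Multiset F) (v : V) (hv : v ≠ 0)
    (h : (aeval T (s.map fun a => X - C a).prod) v = 0) :
    ∃ a ∈ s, ∃ w : V, w ≠ 0 ∧ T w = a • w := by
  induction s using Multiset.induction_on with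
  | empty =>
    simp at h
    exact absurd h hv
  | cons a s ih =>
    by_cases hw : (aeval T (s.map fun a => X - C a).prod) v = 0
    · obtain ⟨b, hb, w, h1, h2⟩ := ih hw
      exact ⟨b, Multiset.mem_cons_of_mem hb, w, h1, h2⟩
    · refine ⟨a, Multiset.mem_cons_self a s, _, hw, ?_⟩
      rw [Multiset.map_cons, Multiset.prod_cons, map_mul, Module.End.mul_apply] at h
      simp only [map_sub, aeval_X, aeval_C, LinearMap.sub_apply, Module.algebraMap_end_apply] at h
      exact sub_eq_zero.mp h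

end Split

section Main

variable {p : ℕ} {F : Type} [Field F] {L : Type} [LieRing L] [LieAlgebra F L] {φ : L → L}

theorem frob_fixed (hp : p.Prime)
    (h2 : ∀ x y : L, ⁅φ x, y⁆ = ((LieAlgebra.ad F L x) ^ p) y)
    (h4 : ∀ x : L, ∃ n : ℕ, 0 < n ∧ φ^[n] x = x) (Q : ℕ) (hQ : 1 < Q)
    (hs : (X ^ Q - X : F[X]).Splits) (x : L)
    (hx : (LieAlgebra.ad F L x) ^ Q = LieAlgebra.ad F L x) : LieAlgebra.ad F L x = 0 := by
  by_contra hne
  obtain ⟨y, hy⟩ : ∃ y, LieAlgebra.ad F L x y ≠ 0 := by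
    by_contra hcon
    push Not at hcon
    exact hne (LinearMap.ext fun y => by rw [hcon y]; rfl)
  set T := LieAlgebra.ad F L x with hT
  have hfac : (X ^ Q - X : F[X]) = (X ^ (Q - 1) - 1) * X := by
    rw [sub_mul, ← pow_succ, Nat.sub_add_cancel (by omega), one_mul]
  have hne0 : (X ^ Q - X : F[X]) ≠ 0 := by
    intro h0
    have := congrArg (fun f => f.coeff Q) h0
    simp [coeff_X, (show (1 : ℕ) ≠ Q by omega)] at this
  have hs1 : (X ^ (Q - 1) - 1 : F[X]).Splits := hs.of_dvd hne0 ⟨X, hfac⟩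
  have hmon : (X ^ (Q - 1) - 1 : F[X]).Monic := by
    have := monic_X_pow_sub_C (1 : F) (n := Q - 1) (by omega)
    simpa using this
  have h5 : (aeval T (((X ^ (Q - 1) - 1 : F[X]).roots).map fun a => X - C a).prod) (T y) = 0 := by
    rw [← hs1.eq_prod_roots_of_monic hmon]
    simp only [map_sub, map_pow, aeval_X, map_one, LinearMap.sub_apply, Module.End.one_apply]
    rw [← Module.End.mul_apply, ← pow_succ, Nat.sub_add_cancel (by omega), hx, sub_self]
  obtain ⟨a, ha, w, hw, hTw⟩ := exists_eig T _ _ hy h5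
  have h6 := eig hp h2 h4 x w a (by rw [← LieAlgebra.ad_apply (R := F)]; exact hTw)
  rcases smul_eq_zero.mp h6 with h7 | h7
  · subst h7
    have h8 := (mem_roots'.mp ha).2
    simp [IsRoot, (show Q - 1 ≠ 0 by omega)] at h8
  · exact hw h7

/-- `AddMonoid.End A` has the characteristic of the commutative ring `A`. -/
theorem charP_end (A : Type) [CommRing A] [CharP A p] : CharP (AddMonoid.End A) p where
  cast_eq_zero_iff n := by
    constructor
    · intro h
      have h1 := DFunLike.congr_fun h (1 : A)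
      have h2 : (n : A) = 0 := by
        have h3 : ((n : AddMonoid.End A)) 1 = n • (1 : A) := AddMonoid.End.natCast_apply n 1
        rw [h3] at h1
        simpa using h1
      exact (CharP.cast_eq_zero_iff A p n).mp h2
    · intro h
      ext a
      have h3 : ((n : AddMonoid.End A)) a = n • a := AddMonoid.End.natCast_apply n a
      rw [h3, nsmul_eq_mul, (CharP.cast_eq_zero_iff A p n).mpr h, zero_mul]
      rfl

theorem seq_ad [CharP F p] (hp : p.Prime)
    (h2 : ∀ x y : L, ⁅φ x, y⁆ = ((LieAlgebra.ad F L x) ^ p) y) (m k : ℕ) (x : L)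
    (hx : φ^[m * p ^ k] x = x) :
    LieAlgebra.ad F L ((fun z => φ^[m] z - z)^[p ^ k] x) = 0 := by
  have _ := Fact.mk hp
  have _ : ExpChar F[X] p := ExpChar.prime hp
  have _ : CharP (AddMonoid.End F[X]) p := charP_end F[X]
  have hmul : ∀ (f g : AddMonoid.End F[X]) (a : F[X]), (f * g) a = f (g a) := fun f g a => rfl
  have hsub : ∀ (f g : AddMonoid.End F[X]) (a : F[X]), (f - g) a = f a - g a := fun f g a => rfl
  have hone : ∀ (a : F[X]), (1 : AddMonoid.End F[X]) a = a := fun a => rfl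
  let Φ : AddMonoid.End F[X] := (iterateFrobenius F[X] p m).toAddMonoidHom
  have hΦ : ∀ f : F[X], Φ f = f ^ p ^ m := fun f => rfl
  have hpow : ∀ j : ℕ, (Φ ^ j) (X : F[X]) = X ^ (p ^ (m * j)) := by
    intro j
    induction j with
    | zero => simp
    | succ j ih =>
      rw [pow_succ', hmul, ih, hΦ, ← pow_mul, ← pow_add, Nat.mul_succ]
  have hD : (Φ - 1) ^ p ^ k = Φ ^ p ^ k - 1 := by
    have := sub_pow_char_pow_of_commute (R := AddMonoid.End F[X]) (x := Φ) (y := 1) p k
      (Commute.one_right Φ)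
    rwa [one_pow] at this
  have hseq : ∀ i : ℕ, LieAlgebra.ad F L ((fun z => φ^[m] z - z)^[i] x)
      = aeval (LieAlgebra.ad F L x) (((Φ - 1) ^ i) (X : F[X])) := by
    intro i
    induction i with
    | zero => simp
    | succ i ih =>
      rw [Function.iterate_succ_apply', pow_succ', hmul]
      rw [hsub, hΦ, hone, map_sub, map_sub, map_pow, ← ih, ad_iter h2]
  rw [hseq, hD, hsub, hpow, hone, map_sub, map_pow, aeval_X,
    ← ad_iter h2, hx, sub_self]

/-- Elements whose period is `m * p ^ k` are central when `F` contains the field with `p ^ m`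
elements. -/
theorem elem [CharP F p] (hp : p.Prime)
    (h2 : ∀ x y : L, ⁅φ x, y⁆ = ((LieAlgebra.ad F L x) ^ p) y)
    (h4 : ∀ x : L, ∃ n : ℕ, 0 < n ∧ φ^[n] x = x) (m k : ℕ) (hm : 0 < m)
    (hs : (X ^ (p ^ m) - X : F[X]).Splits) (x : L) (hx : φ^[m * p ^ k] x = x) :
    LieAlgebra.ad F L x = 0 := by
  have key : ∀ n : ℕ, ∀ z : L, LieAlgebra.ad F L ((fun z => φ^[m] z - z)^[n] z) = 0 →
      LieAlgebra.ad F L z = 0 := by
    intro n
    induction n with
    | zero => intro z hz; exact hz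
    | succ n ih =>
      intro z hz
      rw [Function.iterate_succ_apply] at hz
      have h1 := ih _ hz
      refine frob_fixed hp h2 h4 (p ^ m) (Nat.one_lt_pow (by omega) hp.one_lt) hs z ?_
      rw [map_sub, ad_iter h2, sub_eq_zero] at h1
      exact h1
  exact key _ _ (seq_ad hp h2 m k x hx)

/-- Vandermonde step. -/
theorem coeff_step (V : Type) [AddCommGroup V] [Module F V] (Q : ℕ) (hQ : 1 < Q) (s : Finset F)
    (hcard : Q ≤ s.card) (hs : ∀ t ∈ s, t ^ Q = t) (a : ℕ → V)
    (h : ∀ t ∈ s, ∑ i ∈ Finset.range (Q + 1), t ^ i • a i = 0) : a 1 + a Q = 0 := by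
  rw [← Module.forall_dual_apply_eq_zero_iff F]
  intro ℓ
  let g : F[X] := ∑ i ∈ Finset.range (Q + 1), C (ℓ (a i)) * X ^ i
  have hgc : ∀ i, i ≤ Q → g.coeff i = ℓ (a i) := by
    intro i hi
    simp only [g, finsetSum_coeff, coeff_C_mul, coeff_X_pow]
    rw [Finset.sum_eq_single i]
    · simp
    · intro j _ hj
      simp [Ne.symm hj]
    · intro hi'
      exact absurd (Finset.mem_range.mpr (by omega)) hi'
  have hgd : g.natDegree ≤ Q := by
    refine natDegree_sum_le_of_forall_le _ _ fun i hi => ?_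
    exact (natDegree_C_mul_X_pow_le _ _).trans (by have := Finset.mem_range.mp hi; omega)
  have hge : ∀ t ∈ s, g.eval t = 0 := by
    intro t ht
    have h1 := congrArg ℓ (h t ht)
    rw [map_sum, map_zero] at h1
    simp only [g, eval_finsetSum, eval_mul, eval_C, eval_pow, eval_X]
    rw [← h1]
    refine Finset.sum_congr rfl fun i _ => ?_
    rw [map_smul, smul_eq_mul, mul_comm]
  let r : F[X] := g - C (g.coeff Q) * (X ^ Q - X)
  have hrQ : r.coeff Q = 0 := by
    simp [r, coeff_X, (show (1 : ℕ) ≠ Q by omega)]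
  have hrd : r.natDegree < s.card := by
    have h1 : r.natDegree ≤ Q := by
      refine (natDegree_sub_le _ _).trans (max_le hgd ?_)
      refine (natDegree_C_mul_le _ _).trans ?_
      refine (natDegree_sub_le _ _).trans (max_le (natDegree_X_pow_le _) ?_)
      exact natDegree_X_le.trans hQ.le
    have h2 : r.natDegree ≠ Q := by
      intro h3
      have h4 : r.leadingCoeff = 0 := by rw [leadingCoeff, h3, hrQ]
      rw [leadingCoeff_eq_zero] at h4
      rw [h4, natDegree_zero] at h3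
      omega
    omega
  have hr0 : r = 0 := by
    refine eq_zero_of_natDegree_lt_card_of_eval_eq_zero' r s (fun t ht => ?_) hrd
    simp [r, hge t ht, hs t ht]
  have h5 := congrArg (fun f => f.coeff 1) hr0
  simp only [r, coeff_sub, coeff_C_mul, coeff_X_pow, coeff_X, coeff_zero] at h5
  rw [if_neg (by omega), if_pos trivial, hgc 1 (by omega), hgc Q le_rfl] at h5
  rw [map_add]
  linear_combination h5

/-- The coefficient of degree one of `(A + tB)^n` and its commutator with `A`. -/
theorem comm_coeff {R : Type} [Ring R] (A B : R) (n : ℕ) :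
    ((C A + X * C B) ^ n : R[X]).coeff 0 = A ^ n ∧
    A * ((C A + X * C B) ^ n : R[X]).coeff 1 - ((C A + X * C B) ^ n : R[X]).coeff 1 * A
      = A ^ n * B - B * A ^ n := by
  induction n with
  | zero => simp [coeff_one]
  | succ n ih =>
    obtain ⟨h0, h1⟩ := ih
    have e0 : ((C A + X * C B) ^ (n + 1) : R[X]).coeff 0 = A ^ (n + 1) := by
      rw [pow_succ, mul_add, coeff_add, coeff_mul_C, h0, ← mul_assoc, coeff_mul_C, coeff_mul_X_zero,
        zero_mul, add_zero, pow_succ]
    have e1 : ((C A + X * C B) ^ (n + 1) : R[X]).coeff 1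
        = ((C A + X * C B) ^ n : R[X]).coeff 1 * A + A ^ n * B := by
      rw [pow_succ, mul_add, coeff_add, coeff_mul_C, ← mul_assoc, coeff_mul_C,
        (show (1 : ℕ) = 0 + 1 from rfl), coeff_mul_X, h0]
    refine ⟨e0, ?_⟩
    rw [e1]
    set c := ((C A + X * C B) ^ n : R[X]).coeff 1
    have h2 : A * (c * A + A ^ n * B) - (c * A + A ^ n * B) * A
        = (A * c - c * A) * A + A * A ^ n * B - A ^ n * B * A := by noncomm_ring
    have h3 : A ^ n * A = A * A ^ n := (pow_succ A n).symm.trans (pow_succ' A n)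
    have h4 : B * A ^ n * A = B * (A * A ^ n) := by rw [mul_assoc, h3]
    have h5 : (A ^ n * B - B * A ^ n) * A + A * A ^ n * B - A ^ n * B * A
        = A * A ^ n * B - B * A ^ n * A := by noncomm_ring
    rw [h2, h1, pow_succ', h5, h4]

/-- If `x`, `y` and all `x + t y`, `t` in the field with `p ^ m` elements, are fixed by the
`2m`-th iterate of the `p`-operation then `[x, y] = 0`. -/
theorem plane [CharP F p] (hp : p.Prime)
    (h2 : ∀ x y : L, ⁅φ x, y⁆ = ((LieAlgebra.ad F L x) ^ p) y)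
    (h4 : ∀ x : L, ∃ n : ℕ, 0 < n ∧ φ^[n] x = x) (m : ℕ) (hm : 0 < m)
    (hs : (X ^ (p ^ m) - X : F[X]).Splits) (s : Finset F) (hcard : p ^ m ≤ s.card)
    (hs1 : ∀ t ∈ s, t ^ (p ^ m) = t) (x y : L) (h5x : φ^[2 * m] x = x) (h5y : φ^[2 * m] y = y)
    (h5 : ∀ t ∈ s, φ^[2 * m] (x + t • y) = x + t • y) : ⁅x, y⁆ = 0 := by
  by_cases hL : Nontrivial L
  swap
  · rw [not_nontrivial_iff_subsingleton] at hL
    exact Subsingleton.elim _ _
  have _ := Fact.mk hp
  have hinj : Function.Injective (algebraMap F (Module.End F L)) :=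
    (algebraMap F (Module.End F L)).injective
  have _ : CharP (Module.End F L) p := charP_of_injective_algebraMap hinj p
  have hQ : 1 < p ^ m := Nat.one_lt_pow (by omega) hp.one_lt
  -- the p^m-th power is minus the identity
  have hneg : ∀ z : L, φ^[2 * m] z = z →
      (LieAlgebra.ad F L z) ^ (p ^ m) = - LieAlgebra.ad F L z := by
    intro z hz
    have h6 : (LieAlgebra.ad F L z) ^ (p ^ m * p ^ m) = LieAlgebra.ad F L z := by
      rw [← pow_add, ← two_mul, ← ad_iter h2, hz]
    have h7 : LieAlgebra.ad F L (φ^[m] z + z) = 0 := by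
      refine frob_fixed hp h2 h4 (p ^ m) hQ hs _ ?_
      rw [map_add, ad_iter h2, add_pow_char_pow_of_commute p m (Commute.pow_self _ _), ← pow_mul,
        h6, add_comm]
    rw [map_add, ad_iter h2] at h7
    exact eq_neg_of_add_eq_zero_left h7
  have key : ∀ A B : Module.End F L, (∀ t ∈ s, (A + t • B) ^ (p ^ m) = -(A + t • B)) →
      B ^ (p ^ m) = - B → A ^ (p ^ m) = - A → A * B = B * A := by
    intro A B hAB hB hA
    let f : (Module.End F L)[X] := (C A + X * C B) ^ (p ^ m) + (C A + X * C B)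
    have hlin : (C A + X * C B : (Module.End F L)[X]).natDegree ≤ 1 := by
      refine (natDegree_add_le _ _).trans (max_le (by simp) ?_)
      refine (natDegree_mul_C_le _ _).trans natDegree_X_le
    have hfd : f.natDegree ≤ p ^ m := by
      refine (natDegree_add_le _ _).trans (max_le ?_ (hlin.trans hQ.le))
      exact (natDegree_pow_le_of_le (p ^ m) hlin).trans (by omega)
    have hev : ∀ t ∈ s, ∑ i ∈ Finset.range (p ^ m + 1), t ^ i • f.coeff i = 0 := by
      intro t ht
      let e := eval₂RingHom' (RingHom.id (Module.End F L)) (algebraMap F (Module.End F L) t)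
        (fun a => (Algebra.commutes t a).symm)
      have h8 : e f = 0 := by
        have hC : ∀ a, e (C a) = a := fun a => by
          change eval₂ _ _ (C a) = a
          rw [eval₂_C, RingHom.id_apply]
        have hX : e X = algebraMap F (Module.End F L) t := by
          change eval₂ _ _ X = _
          rw [eval₂_X]
        have h9 : e (C A + X * C B) = A + t • B := by
          rw [map_add, map_mul, hC, hC, hX, Algebra.smul_def]
        simp only [f]
        rw [map_add, map_pow, h9, hAB t ht, neg_add_cancel]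
      have h10 : e f = f.eval₂ (RingHom.id (Module.End F L))
        (algebraMap F (Module.End F L) t) := rfl
      rw [h10, eval₂_eq_sum_range' _ (Nat.lt_succ_of_le hfd)] at h8
      rw [← h8]
      refine Finset.sum_congr rfl fun i _ => ?_
      rw [RingHom.id_apply, ← map_pow, ← Algebra.commutes, ← Algebra.smul_def]
    have h11 := coeff_step (F := F) (Module.End F L) (p ^ m) hQ s hcard hs1 f.coeff hev
    have hl1 : (C A + X * C B : (Module.End F L)[X]).coeff 1 = B := by
      rw [coeff_add, coeff_mul_C, coeff_X_one, one_mul, coeff_C_of_ne_zero one_ne_zero, zero_add]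
    have hlQ : (C A + X * C B : (Module.End F L)[X]).coeff (p ^ m) = 0 :=
      coeff_eq_zero_of_natDegree_lt (by omega)
    have hpQ : ((C A + X * C B) ^ (p ^ m) : (Module.End F L)[X]).coeff (p ^ m) = B ^ (p ^ m) := by
      have := coeff_pow_of_natDegree_le hlin (m := p ^ m)
      rwa [mul_one, hl1] at this
    simp only [f, coeff_add ((C A + X * C B) ^ p ^ m) (C A + X * C B)] at h11
    rw [hl1, hlQ, hpQ, hB, add_zero, add_assoc, add_neg_cancel, add_zero] at h11
    have h12 := (comm_coeff A B (p ^ m)).2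
    rw [h11, mul_zero, zero_mul, sub_zero, hA] at h12
    have h13 : A * B - B * A = -(-A * B - B * -A) := by noncomm_ring
    rw [← h12, neg_zero] at h13
    exact sub_eq_zero.mp h13
  have hcomm := key (LieAlgebra.ad F L x) (LieAlgebra.ad F L y)
    (fun t ht => by rw [← map_smul, ← map_add, hneg _ (h5 t ht)]) (hneg y h5y) (hneg x h5x)
  have h14 := LinearMap.congr_fun hcomm x
  simp only [Module.End.mul_apply, LieAlgebra.ad_apply, lie_self, lie_zero] at h14
  refine nil hp h2 h4 x y 2 ?_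
  rw [pow_two, Module.End.mul_apply, LieAlgebra.ad_apply, LieAlgebra.ad_apply, ← lie_skew x y,
    lie_neg, h14, neg_zero]

/-- Traces are central. -/
theorem trace [CharP F p] (hp : p.Prime)
    (h2 : ∀ x y : L, ⁅φ x, y⁆ = ((LieAlgebra.ad F L x) ^ p) y)
    (h4 : ∀ x : L, ∃ n : ℕ, 0 < n ∧ φ^[n] x = x) (hs : (X ^ p - X : F[X]).Splits) (n : ℕ) (x : L)
    (hx : φ^[n] x = x) : LieAlgebra.ad F L (∑ i ∈ Finset.range n, φ^[i] x) = 0 := by
  have _ := Fact.mk hp
  refine frob_fixed hp h2 h4 p hp.one_lt hs _ ?_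
  have h6 : LieAlgebra.ad F L (∑ i ∈ Finset.range n, φ^[i] x)
      = aeval (LieAlgebra.ad F L x) (∑ i ∈ Finset.range n, (X : F[X]) ^ (p ^ i)) := by
    rw [map_sum, map_sum]
    refine Finset.sum_congr rfl fun i _ => ?_
    rw [ad_iter h2, map_pow, aeval_X]
  have h7 : (∑ i ∈ Finset.range n, (X : F[X]) ^ (p ^ i)) ^ p
      = ∑ i ∈ Finset.range n, (X : F[X]) ^ (p ^ (i + 1)) := by
    rw [sum_pow_char p]
    refine Finset.sum_congr rfl fun i _ => ?_
    rw [← pow_mul, pow_succ]
  have h8 : ∑ i ∈ Finset.range n, (X : F[X]) ^ (p ^ (i + 1))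
      = ∑ i ∈ Finset.range n, (X : F[X]) ^ (p ^ i) + (X ^ (p ^ n) - X) := by
    have e1 := Finset.sum_range_succ (fun i => (X : F[X]) ^ (p ^ i)) n
    have e2 := Finset.sum_range_succ' (fun i => (X : F[X]) ^ (p ^ i)) n
    rw [e1] at e2
    simp only [pow_zero, pow_one] at e2
    rw [← add_sub_assoc, e2, add_sub_cancel_right]
  rw [h6, ← map_pow, h7, h8, map_add, map_sub, map_pow, aeval_X, ← ad_iter h2, hx, sub_self,
    add_zero]

theorem splits_of_subfield (hp : p.Prime) (m : ℕ)
    (h : ∃ K : Subfield F, Nat.card K = p ^ m) : (X ^ (p ^ m) - X : F[X]).Splits := by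
  obtain ⟨K, hK⟩ := h
  have hfin : Finite K := Nat.finite_of_card_ne_zero (by rw [hK]; exact (pow_pos hp.pos m).ne')
  have _ : Fintype K := Fintype.ofFinite K
  have h1 := (FiniteField.isSplittingField_sub K K).splits
  rw [← Nat.card_eq_fintype_card, hK] at h1
  have h2 := (h1.map K.subtype)
  simpa using h2

theorem splits_prime [CharP F p] (hp : p.Prime) : (X ^ (p ^ 1) - X : F[X]).Splits := by
  have _ := Fact.mk hp
  have h1 := (FiniteField.isSplittingField_sub (ZMod p) (ZMod p)).splits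
  rw [ZMod.card] at h1
  have h2 := (h1.map (ZMod.castHom (dvd_refl p) F))
  simpa using h2

/-- Solvable ideals are central. -/
theorem solvable_central (hp : p.Prime)
    (h2 : ∀ x y : L, ⁅φ x, y⁆ = ((LieAlgebra.ad F L x) ^ p) y)
    (h4 : ∀ x : L, ∃ n : ℕ, 0 < n ∧ φ^[n] x = x) (I : LieIdeal F L)
    (hI : LieAlgebra.IsSolvable I) (x : L) (hx : x ∈ I) (y : L) : ⁅x, y⁆ = 0 := by
  obtain ⟨k, hk⟩ := (LieAlgebra.isSolvable_iff F I).mp hI
  rw [LieIdeal.derivedSeries_eq_bot_iff] at hk
  have key : ∀ j : ℕ, j ≤ k → ∀ a ∈ LieAlgebra.derivedSeriesOfIdeal F L (k - j) I,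
      ∀ z : L, ⁅a, z⁆ = 0 := by
    intro j
    induction j with
    | zero =>
      intro _ a ha z
      rw [Nat.sub_zero, hk, LieSubmodule.mem_bot] at ha
      rw [ha, zero_lie]
    | succ j ih =>
      intro hj a ha z
      have h5 := ih (by omega)
      have e1 : k - j = (k - (j + 1)) + 1 := by omega
      rw [e1, LieAlgebra.derivedSeriesOfIdeal_succ] at h5
      refine nil hp h2 h4 a z 3 ?_
      have h6 : ⁅a, z⁆ ∈ LieAlgebra.derivedSeriesOfIdeal F L (k - (j + 1)) I := by
        rw [← lie_skew]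
        exact neg_mem (LieSubmodule.lie_mem _ ha)
      have h7 := h5 _ (LieSubmodule.lie_mem_lie ha h6) a
      rw [← lie_skew, neg_eq_zero] at h7
      simp only [pow_succ, pow_zero, one_mul, Module.End.mul_apply, LieAlgebra.ad_apply]
      exact h7
  have h8 := key k le_rfl x (by simpa using hx) y
  exact h8

/-- Solvable subalgebras are abelian. -/
theorem solvable_sub (hp : p.Prime)
    (h2 : ∀ x y : L, ⁅φ x, y⁆ = ((LieAlgebra.ad F L x) ^ p) y)
    (h4 : ∀ x : L, ∃ n : ℕ, 0 < n ∧ φ^[n] x = x) (S : LieSubalgebra F L)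
    (hS : LieAlgebra.IsSolvable S) (x y : S) : ⁅(x : L), (y : L)⁆ = 0 := by
  obtain ⟨k, hk⟩ := (LieAlgebra.isSolvable_iff F S).mp hS
  have key : ∀ j : ℕ, j ≤ k → ∀ a ∈ LieAlgebra.derivedSeries F S (k - j),
      ∀ z : S, ⁅a, z⁆ = 0 := by
    intro j
    induction j with
    | zero =>
      intro _ a ha z
      rw [Nat.sub_zero, hk, LieSubmodule.mem_bot] at ha
      rw [ha, zero_lie]
    | succ j ih =>
      intro hj a ha z
      have h5 := ih (by omega)
      have e1 : k - j = (k - (j + 1)) + 1 := by omega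
      rw [e1, LieAlgebra.derivedSeries_def, LieAlgebra.derivedSeriesOfIdeal_succ] at h5
      have h6 : ⁅a, z⁆ ∈ LieAlgebra.derivedSeriesOfIdeal F S (k - (j + 1)) ⊤ := by
        rw [← lie_skew]
        exact neg_mem (LieSubmodule.lie_mem _ ha)
      have h7 := h5 _ (LieSubmodule.lie_mem_lie ha h6) a
      rw [← lie_skew, neg_eq_zero] at h7
      have h8 : ⁅(a : L), (z : L)⁆ = 0 := by
        refine nil hp h2 h4 (a : L) (z : L) 3 ?_
        simp only [pow_succ, pow_zero, one_mul, Module.End.mul_apply, LieAlgebra.ad_apply]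
        have h9 := congrArg (fun s : S => (s : L)) h7
        simpa using h9
      exact Subtype.ext h8
  have h10 := key k le_rfl x (by simp [LieAlgebra.derivedSeries_def]) y
  exact congrArg (fun s : S => (s : L)) h10

theorem field_alg (h1 : ∀ (c : F) (x : L), φ (c • x) = c ^ p • φ x)
    (h4 : ∀ x : L, ∃ n : ℕ, 0 < n ∧ φ^[n] x = x) (x : L) (hx : x ≠ 0) (c : F) :
    ∃ n : ℕ, 0 < n ∧ c ^ (p ^ n) = c := by
  obtain ⟨n, hn, h5⟩ := h4 x
  obtain ⟨m, hm, h6⟩ := h4 (c • x)
  have h7 : ∀ j : ℕ, φ^[j] (c • x) = c ^ (p ^ j) • φ^[j] x := by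
    intro j
    induction j with
    | zero => simp
    | succ j ih =>
      rw [Function.iterate_succ_apply', ih, h1, Function.iterate_succ_apply', ← pow_mul, pow_succ]
  have h8 : φ^[n * m] x = x := by
    rw [Function.iterate_mul]
    exact Function.iterate_fixed h5 m
  have h9 : φ^[n * m] (c • x) = c • x := by
    rw [mul_comm, Function.iterate_mul]
    exact Function.iterate_fixed h6 n
  refine ⟨n * m, Nat.mul_pos hn hm, ?_⟩
  have h10 := h7 (n * m)
  rw [h8, h9] at h10
  have h11 : (c ^ (p ^ (n * m)) - c) • x = 0 := by rw [sub_smul, ← h10, sub_self]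
  rcases smul_eq_zero.mp h11 with h12 | h12
  · exact sub_eq_zero.mp h12
  · exact absurd h12 hx

end Main

/-- **Main result.** Let `L` be a Lie `p`-algebra with periodic `p`-operation `φ` over a field `F`
of characteristic `p` (hypotheses as in the frozen statement `S01361`). Elements whose period is a
power of `p` (or `m p^k` when `F` contains the field with `p ^ m` elements) are central, `L` is
abelian if `F` is algebraically closed or if `φ (φ x) = x` for all `x`, traces are central, solvable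
ideals are central, solvable subalgebras are abelian, and `F` is algebraic over its prime field
unless `L = 0`. -/
theorem result :
    ∀ (p : ℕ), p.Prime → ∀ (F : Type) [Field F] [CharP F p] (L : Type) [LieRing L]
      [LieAlgebra F L] (φ : L → L),
      (∀ (c : F) (x : L), φ (c • x) = c ^ p • φ x) →
      (∀ x y : L, ⁅φ x, y⁆ = ((LieAlgebra.ad F L x) ^ p) y) →
      (∀ x y : L,
        (UniversalEnvelopingAlgebra.ι F (φ (x + y)) : UniversalEnvelopingAlgebra F L)
          - UniversalEnvelopingAlgebra.ι F (φ x) - UniversalEnvelopingAlgebra.ι F (φ y)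
          = (UniversalEnvelopingAlgebra.ι F (x + y) : UniversalEnvelopingAlgebra F L) ^ p
            - (UniversalEnvelopingAlgebra.ι F x : UniversalEnvelopingAlgebra F L) ^ p
            - (UniversalEnvelopingAlgebra.ι F y : UniversalEnvelopingAlgebra F L) ^ p) →
      (∀ x : L, ∃ n : ℕ, 0 < n ∧ φ^[n] x = x) →
      (∀ (k : ℕ) (x : L), φ^[p ^ k] x = x → ∀ y : L, ⁅x, y⁆ = 0) ∧
      (∀ (m k : ℕ), 0 < m → (∃ K : Subfield F, Nat.card K = p ^ m) →
        ∀ x : L, φ^[m * p ^ k] x = x → ∀ y : L, ⁅x, y⁆ = 0) ∧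
      (IsAlgClosed F → ∀ x y : L, ⁅x, y⁆ = 0) ∧
      ((∀ x : L, φ (φ x) = x) → ∀ x y : L, ⁅x, y⁆ = 0) ∧
      (∀ x y : L, (∀ i j : ℕ, φ (φ (i • x + j • y)) = i • x + j • y) → ⁅x, y⁆ = 0) ∧
      (∀ (m : ℕ) (K : Subfield F), 0 < m → Nat.card K = p ^ m → ∀ x y : L,
        (∀ a ∈ K, ∀ b ∈ K, φ^[2 * m] (a • x + b • y) = a • x + b • y) → ⁅x, y⁆ = 0) ∧
      (∀ (n : ℕ) (x : L), φ^[n] x = x → ∀ y : L, ⁅∑ i ∈ Finset.range n, φ^[i] x, y⁆ = 0) ∧
      (∀ I : LieIdeal F L, LieAlgebra.IsSolvable I → ∀ x ∈ I, ∀ y : L, ⁅x, y⁆ = 0) ∧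
      (∀ S : LieSubalgebra F L, LieAlgebra.IsSolvable S → ∀ x ∈ S, ∀ y ∈ S, ⁅x, y⁆ = 0) ∧
      (∀ (x y : L) (r : ℕ), ((LieAlgebra.ad F L x) ^ r) y = 0 → ⁅x, y⁆ = 0) ∧
      (∀ x : L, x ≠ 0 → ∀ c : F, ∃ n : ℕ, 0 < n ∧ c ^ (p ^ n) = c) := by
  intro p hp F _ _ L _ _ φ h1 h2 _ h4
  have hA : ∀ (m k : ℕ), 0 < m → (X ^ (p ^ m) - X : F[X]).Splits →
      ∀ x : L, φ^[m * p ^ k] x = x → ∀ y : L, ⁅x, y⁆ = 0 := by
    intro m k hm hs x hx y
    have := elem hp h2 h4 m k hm hs x hx
    rw [← LieAlgebra.ad_apply (R := F), this, LinearMap.zero_apply]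
  have hB : ∀ x y : L, (∀ i j : ℕ, φ (φ (i • x + j • y)) = i • x + j • y) → ⁅x, y⁆ = 0 := by
    intro x y h
    classical
    have _ := Fact.mk hp
    have hinj := CharP.natCast_injOn_Iio F p
    refine plane hp h2 h4 1 one_pos (splits_prime hp)
      ((Finset.range p).image (fun j : ℕ => (j : F))) ?_ ?_ x y ?_ ?_ ?_
    · rw [Finset.card_image_of_injOn (by simpa using hinj), Finset.card_range, pow_one]
    · intro t ht
      obtain ⟨j, _, rfl⟩ := Finset.mem_image.mp ht
      rw [pow_one]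
      exact map_natCast (frobenius F p) j
    · simpa using h 1 0
    · simpa using h 0 1
    · intro t ht
      obtain ⟨j, _, rfl⟩ := Finset.mem_image.mp ht
      have := h 1 j
      rw [one_smul, ← Nat.cast_smul_eq_nsmul F j y] at this
      exact this
  refine ⟨?_, ?_, ?_, ?_, hB, ?_, ?_, ?_, ?_, ?_, ?_⟩
  · intro k x hx y
    exact hA 1 k one_pos (splits_prime hp) x (by rwa [one_mul]) y
  · intro m k hm hK x hx y
    exact hA m k hm (splits_of_subfield hp m hK) x hx y
  · intro _ x y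
    obtain ⟨n, hn, hx⟩ := h4 x
    exact hA n 0 hn (IsAlgClosed.splits _) x (by rwa [pow_zero, mul_one]) y
  · intro h x y
    exact hB x y fun i j => h _
  · intro m K hm hK x y h
    classical
    have hfin : Finite K := Nat.finite_of_card_ne_zero (by rw [hK]; exact (pow_pos hp.pos m).ne')
    have _ : Fintype K := Fintype.ofFinite K
    refine plane hp h2 h4 m hm (splits_of_subfield hp m ⟨K, hK⟩)
      ((Finset.univ : Finset K).map ⟨Subtype.val, Subtype.val_injective⟩) ?_ ?_ x y ?_ ?_ ?_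
    · rw [Finset.card_map, Finset.card_univ, ← Nat.card_eq_fintype_card, hK]
    · intro t ht
      obtain ⟨a, _, rfl⟩ := Finset.mem_map.mp ht
      have h6 := FiniteField.pow_card a
      rw [← Nat.card_eq_fintype_card, hK] at h6
      exact congrArg Subtype.val h6
    · simpa using h 1 K.one_mem 0 K.zero_mem
    · simpa using h 0 K.zero_mem 1 K.one_mem
    · intro t ht
      obtain ⟨a, _, rfl⟩ := Finset.mem_map.mp ht
      simpa using h 1 K.one_mem a a.2
  · intro n x hx y
    have h6 := trace hp h2 h4 (by simpa using splits_prime (F := F) hp) n x hx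
    rw [← LieAlgebra.ad_apply (R := F), h6, LinearMap.zero_apply]
  · intro I hI x hx y
    exact solvable_central hp h2 h4 I hI x hx y
  · intro S hS x hx y hy
    exact solvable_sub hp h2 h4 S hS ⟨x, hx⟩ ⟨y, hy⟩
  · intro x y r h
    exact nil hp h2 h4 x y r h
  · intro x hx c
    exact field_alg h1 h4 x hx c

end Pool.Agent.Results.MP_84341e_al.PeriodicCases
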